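import Mathlib

/-!
# Convexity of the threshold exponent function

For `γ > 1` and `α ∈ (0, 1/γ)` let `S_α` be the set of all `β > 0` such that
`γ z^(β-α) (1 - z^α) ≤ 1 - z` for every `z ∈ (0,1)`, and `β(α) = inf S_α`.
We prove that `α ↦ β(α)` is convex on `(0, 1/γ)` for every `γ > 1`.

Idea: the planar set `{(α, β) : α > 0, β ∈ S_α}` is convex.  Given `β_i ∈ S_{α_i}` and weights
`a + b = 1`, put `α = a α_1 + b α_2`.  For `z ∈ (0,1)` apply the hypothesis at the *rescaled* points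
`z_i = z^(α/α_i)`, for which `z_i^(α_i) = z^α`, and combine the two inequalities with the weights
`p_i = a_i α_i / α` by weighted AM-GM:
`(1-z_1)^(p_1) (1-z_2)^(p_2) + z_1^(p_1) z_2^(p_2) ≤ 1`, where `z_1^(p_1) z_2^(p_2) = z`.
-/

namespace Pool.Agent.Results.MP_16faa7_an.ThresholdConvex

/-- The set `S_α` (for the fixed parameter `γ`): all `β > 0` with
`γ z^(β-α) (1 - z^α) ≤ 1 - z` for all `z ∈ (0,1)`. -/
def admissible (γ α : ℝ) : Set ℝ :=
  {β | 0 < β ∧ ∀ z : ℝ, 0 < z → z < 1 → γ * z ^ (β - α) * (1 - z ^ α) ≤ 1 - z}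

/-- The threshold exponent `β(α) = inf S_α`. -/
noncomputable def threshold (γ α : ℝ) : ℝ := sInf (admissible γ α)

/-- The set of pairs `(α, β)` with `α > 0`, `β ∈ S_α` is convex. -/
theorem admissible_combo {γ : ℝ} (hγ : 1 < γ) {α₁ α₂ β₁ β₂ a b : ℝ} (hα₁ : 0 < α₁) (hα₂ : 0 < α₂)
    (h₁ : β₁ ∈ admissible γ α₁) (h₂ : β₂ ∈ admissible γ α₂)
    (ha : 0 < a) (hb : 0 < b) (hab : a + b = 1) :
    a * β₁ + b * β₂ ∈ admissible γ (a * α₁ + b * α₂) := by
  obtain ⟨hβ₁, h₁⟩ := h₁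
  obtain ⟨hβ₂, h₂⟩ := h₂
  refine ⟨by positivity, ?_⟩
  intro z hz0 hz1
  set α : ℝ := a * α₁ + b * α₂ with hα
  have hαpos : 0 < α := by positivity
  -- rescaled points
  set z₁ : ℝ := z ^ (α / α₁) with hz₁
  set z₂ : ℝ := z ^ (α / α₂) with hz₂
  have hz₁0 : 0 < z₁ := Real.rpow_pos_of_pos hz0 _
  have hz₂0 : 0 < z₂ := Real.rpow_pos_of_pos hz0 _
  have hz₁1 : z₁ < 1 := Real.rpow_lt_one hz0.le hz1 (by positivity)
  have hz₂1 : z₂ < 1 := Real.rpow_lt_one hz0.le hz1 (by positivity)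
  have e₁ := h₁ z₁ hz₁0 hz₁1
  have e₂ := h₂ z₂ hz₂0 hz₂1
  have w₁ : z₁ ^ α₁ = z ^ α := by
    rw [hz₁, ← Real.rpow_mul hz0.le]
    congr 1
    field_simp
  have w₂ : z₂ ^ α₂ = z ^ α := by
    rw [hz₂, ← Real.rpow_mul hz0.le]
    congr 1
    field_simp
  rw [w₁] at e₁
  rw [w₂] at e₂
  -- weights
  set p : ℝ := a * α₁ / α with hp
  set q : ℝ := b * α₂ / α with hq
  have hp0 : 0 < p := by positivity
  have hq0 : 0 < q := by positivity
  have hpq : p + q = 1 := by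
    rw [hp, hq, ← add_div, ← hα]
    exact div_self hαpos.ne'
  have hwpos : 0 < 1 - z ^ α := by
    have := Real.rpow_lt_one hz0.le hz1 hαpos
    linarith
  have hγ0 : 0 < γ := by linarith
  -- weighted product of the two inequalities
  have prod_le : (γ * z₁ ^ (β₁ - α₁) * (1 - z ^ α)) ^ p * (γ * z₂ ^ (β₂ - α₂) * (1 - z ^ α)) ^ q
      ≤ (1 - z₁) ^ p * (1 - z₂) ^ q := by
    apply mul_le_mul
    · exact Real.rpow_le_rpow (by positivity) e₁ hp0.le
    · exact Real.rpow_le_rpow (by positivity) e₂ hq0.le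
    · positivity
    · exact Real.rpow_nonneg (by linarith) _
  -- evaluation of the left-hand side
  have lhs_eq : (γ * z₁ ^ (β₁ - α₁) * (1 - z ^ α)) ^ p * (γ * z₂ ^ (β₂ - α₂) * (1 - z ^ α)) ^ q
      = γ * z ^ (a * β₁ + b * β₂ - α) * (1 - z ^ α) := by
    have hz₁' : (z₁ ^ (β₁ - α₁)) ^ p = z ^ (a * (β₁ - α₁)) := by
      rw [hz₁, ← Real.rpow_mul hz0.le, ← Real.rpow_mul hz0.le]
      congr 1
      rw [hp]
      field_simp
    have hz₂' : (z₂ ^ (β₂ - α₂)) ^ q = z ^ (b * (β₂ - α₂)) := by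
      rw [hz₂, ← Real.rpow_mul hz0.le, ← Real.rpow_mul hz0.le]
      congr 1
      rw [hq]
      field_simp
    rw [Real.mul_rpow (by positivity) hwpos.le, Real.mul_rpow hγ0.le (by positivity),
      Real.mul_rpow (by positivity) hwpos.le, Real.mul_rpow hγ0.le (by positivity), hz₁', hz₂']
    have g1 : γ ^ p * γ ^ q = γ := by
      rw [← Real.rpow_add hγ0, hpq, Real.rpow_one]
    have g2 : (1 - z ^ α) ^ p * (1 - z ^ α) ^ q = 1 - z ^ α := by
      rw [← Real.rpow_add hwpos, hpq, Real.rpow_one]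
    have g3 : z ^ (a * (β₁ - α₁)) * z ^ (b * (β₂ - α₂)) = z ^ (a * β₁ + b * β₂ - α) := by
      rw [← Real.rpow_add hz0]
      congr 1
      rw [hα]
      ring
    calc γ ^ p * z ^ (a * (β₁ - α₁)) * (1 - z ^ α) ^ p
          * (γ ^ q * z ^ (b * (β₂ - α₂)) * (1 - z ^ α) ^ q)
        = (γ ^ p * γ ^ q) * (z ^ (a * (β₁ - α₁)) * z ^ (b * (β₂ - α₂)))
            * ((1 - z ^ α) ^ p * (1 - z ^ α) ^ q) := by ring
      _ = _ := by rw [g1, g2, g3]
  -- weighted AM-GM twice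
  have am1 : (1 - z₁) ^ p * (1 - z₂) ^ q ≤ p * (1 - z₁) + q * (1 - z₂) :=
    Real.geom_mean_le_arith_mean2_weighted hp0.le hq0.le (by linarith) (by linarith) hpq
  have am2 : z₁ ^ p * z₂ ^ q ≤ p * z₁ + q * z₂ :=
    Real.geom_mean_le_arith_mean2_weighted hp0.le hq0.le hz₁0.le hz₂0.le hpq
  have zz : z₁ ^ p * z₂ ^ q = z := by
    rw [hz₁, hz₂, ← Real.rpow_mul hz0.le, ← Real.rpow_mul hz0.le, ← Real.rpow_add hz0]
    have : α / α₁ * p + α / α₂ * q = 1 := by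
      rw [hp, hq]
      field_simp
      linarith
    rw [this, Real.rpow_one]
  calc γ * z ^ (a * β₁ + b * β₂ - α) * (1 - z ^ α)
      ≤ (1 - z₁) ^ p * (1 - z₂) ^ q := by rw [← lhs_eq]; exact prod_le
    _ ≤ p * (1 - z₁) + q * (1 - z₂) := am1
    _ = (p + q) - (p * z₁ + q * z₂) := by ring
    _ ≤ 1 - z := by rw [hpq]; linarith

/-- For `0 < α < 1/γ` the exponent `1` is admissible, so `S_α` is nonempty. -/
theorem one_mem_admissible {γ : ℝ} (hγ : 1 < γ) {α : ℝ} (hα : α ∈ Set.Ioo 0 (1 / γ)) :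
    (1 : ℝ) ∈ admissible γ α := by
  obtain ⟨hα0, hα1⟩ := hα
  have hγ0 : 0 < γ := by linarith
  have hγα : γ * α < 1 := by
    rw [lt_div_iff₀ hγ0] at hα1
    linarith
  have hα1' : α < 1 := by nlinarith
  refine ⟨one_pos, ?_⟩
  intro z hz0 hz1
  -- Bernoulli: `1 ≤ z^α (1 + α (1/z - 1))`
  have hb : (1 + (1 / z - 1)) ^ α ≤ 1 + α * (1 / z - 1) := by
    apply rpow_one_add_le_one_add_mul_self _ hα0.le hα1'.le
    have : 1 < 1 / z := by rw [lt_div_iff₀ hz0]; linarith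
    linarith
  have hzz : (1 + (1 / z - 1)) ^ α = (z ^ α)⁻¹ := by
    rw [add_sub_cancel, one_div, Real.inv_rpow hz0.le]
  rw [hzz] at hb
  have hzα : 0 < z ^ α := Real.rpow_pos_of_pos hz0 α
  have hb2 : 1 ≤ z ^ α + z ^ α * (α * (1 / z - 1)) := by
    have := mul_le_mul_of_nonneg_left hb hzα.le
    rw [mul_inv_cancel₀ hzα.ne'] at this
    linarith
  have hz' : z ^ (1 - α) * z ^ α = z := by
    rw [← Real.rpow_add hz0]
    norm_num
  have hz1α : 0 < z ^ (1 - α) := Real.rpow_pos_of_pos hz0 _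
  calc γ * z ^ (1 - α) * (1 - z ^ α)
      ≤ γ * z ^ (1 - α) * (z ^ α * (α * (1 / z - 1))) := by
        apply mul_le_mul_of_nonneg_left (by linarith) (by positivity)
    _ = γ * α * ((z ^ (1 - α) * z ^ α) * (1 / z - 1)) := by ring
    _ = γ * α * (1 - z) := by
        rw [hz']
        field_simp
    _ ≤ 1 * (1 - z) := mul_le_mul_of_nonneg_right hγα.le (by linarith)
    _ = 1 - z := one_mul _

/-- **Main result.** For every `γ > 1` the threshold exponent function `α ↦ β(α)` is convex on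
`(0, 1/γ)`. -/
theorem result : ∀ γ : ℝ, 1 < γ → ConvexOn ℝ (Set.Ioo (0 : ℝ) (1 / γ)) (threshold γ) := by
  intro γ hγ
  refine ⟨convex_Ioo _ _, ?_⟩
  intro α₁ h₁ α₂ h₂ a b ha hb hab
  simp only [smul_eq_mul]
  have bdd : ∀ α, BddBelow (admissible γ α) := fun α => ⟨0, fun β hβ => hβ.1.le⟩
  rcases ha.eq_or_lt with ha0 | ha0
  · subst ha0
    have : b = 1 := by linarith
    subst this
    simp
  rcases hb.eq_or_lt with hb0 | hb0
  · subst hb0
    have : a = 1 := by linarith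
    subst this
    simp
  -- approximate the two infima
  apply le_of_forall_pos_le_add
  intro ε hε
  obtain ⟨β₁, hβ₁, hlt₁⟩ := Real.lt_sInf_add_pos ⟨1, one_mem_admissible hγ h₁⟩ hε
  obtain ⟨β₂, hβ₂, hlt₂⟩ := Real.lt_sInf_add_pos ⟨1, one_mem_admissible hγ h₂⟩ hε
  have hmem := admissible_combo hγ h₁.1 h₂.1 hβ₁ hβ₂ ha0 hb0 hab
  have hle : threshold γ (a * α₁ + b * α₂) ≤ a * β₁ + b * β₂ := csInf_le (bdd _) hmem
  have k₁ : a * β₁ ≤ a * (threshold γ α₁ + ε) := mul_le_mul_of_nonneg_left hlt₁.le ha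
  have k₂ : b * β₂ ≤ b * (threshold γ α₂ + ε) := mul_le_mul_of_nonneg_left hlt₂.le hb
  have : a * (threshold γ α₁ + ε) + b * (threshold γ α₂ + ε)
      = a * threshold γ α₁ + b * threshold γ α₂ + (a + b) * ε := by ring
  rw [hab, one_mul] at this
  linarith

end Pool.Agent.Results.MP_16faa7_an.ThresholdConvex
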